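import Pool.Agent.W973.IP.FDefs

/-!
Project IP (helper973), task IPF-FINF: finiteness of the solutions.
-/

set_option autoImplicit false

namespace Pool.Agent.W293.IP

open Pool.Agent.W973.IP Pool.Agent.NPC Pool.Agent.NPC.ER Pool.Agent.NPC.H612

lemma facts (h1 : S_BODY) (h2 : S_CH) {E : List ℕ} {S : List ER.Con} {r : ℕ} {x : ℕ → ℝ}
    (hx : x ∈ sols (finF E S r)) : (∀ i, i ∉ fvars (finF E S r) → x i = 0) ∧
      Chains (nn S) r x ∧ FJx E S r x ∧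
      (∀ t ≤ KK E S + bb (nn S), x (nm 9 t 0) = (1 / 2) ^ 2 ^ t) ∧
      x (nm 0 0 0) = (1 / 2) ^ 2 ^ KK E S ∧
      x (nm 1 0 0) = (1 / 2) ^ 2 ^ (KK E S + bb (nn S)) := by
  obtain ⟨hx1, hx2⟩ := hx
  unfold finF at hx2
  rw [holds_conj] at hx2
  have hb := hx2 _ (List.mem_cons_self)
  have hh := hx2 _ (List.mem_cons_of_mem _ (List.mem_cons_self))
  have ht := hx2 _ (List.mem_cons_of_mem _ (List.mem_cons_of_mem _ (List.mem_cons_self)))
  have hc := hx2 _ (List.mem_cons_of_mem _ (List.mem_cons_of_mem _ (List.mem_cons_of_mem _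
    (List.mem_cons_self))))
  have he := hx2 _ (List.mem_cons_of_mem _ (List.mem_cons_of_mem _ (List.mem_cons_of_mem _
    (List.mem_cons_of_mem _ (List.mem_cons_self)))))
  rw [h1] at hb
  rw [h2.2.2.2] at ht
  have hh' : x (nm 9 0 0) + x (nm 9 0 0) = 1 := hh
  have hc' : x (nm 0 0 0) = x (nm 9 (KK E S) 0) := hc
  have he' : x (nm 1 0 0) = x (nm 9 (KK E S + bb (nn S)) 0) := he
  have h0 : x (nm 9 0 0) = 1 / 2 := by linarith
  rw [h0] at ht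
  exact ⟨hx1, hb.1, hb.2, ht, by rw [hc', ht _ (Nat.le_add_right _ _)], by rw [he', ht _ le_rfl]⟩

theorem finfT (h1 : S_BODY) (h2 : S_CH) (h3 : S_FV) (h4 : S_FIN) (h5 : S_HP) : S_FINF := by
  intro E S r hr
  have h6 := h4 (nn S) (hP E S) (h5 E S).1 ((1 / 2) ^ 2 ^ KK E S)
    ((1 / 2) ^ 2 ^ (KK E S + bb (nn S))) (by positivity) r hr
  refine Set.Finite.of_injOn (f := fun x : ℕ → ℝ => ((x (nm 2 0 0),
    (fun l : Fin (nn S) => x (nm 3 l 0)),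
    (fun (i : Fin (r + 1)) (j : Fin (nn S)) => x (nm 4 i j)),
    (fun i : Fin (r + 1) => x (nm 5 i 0))) :
      ℝ × Vec (nn S) × (Fin (r + 1) → Vec (nn S)) × (Fin (r + 1) → ℝ))) ?_ ?_ h6
  · intro x hx
    obtain ⟨-, -, h7, -, h8, h9⟩ := facts h1 h2 hx
    unfold FJx at h7
    rw [h8, h9] at h7
    show FJ _ _ _ _ _ _ _ _ _
    push_cast
    exact h7
  · intro x hx y hy hxy
    simp only [Prod.mk.injEq] at hxy
    obtain ⟨e2, e3, e4, e5⟩ := hxy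
    obtain ⟨x0, x1, x2, x3, x4, x5⟩ := facts h1 h2 hx
    obtain ⟨y0, y1, y2, y3, y4, y5⟩ := facts h1 h2 hy
    have e3' : ∀ l < nn S, x (nm 3 l 0) = y (nm 3 l 0) := fun l hl => congrFun e3 ⟨l, hl⟩
    have e4' : ∀ i ≤ r, (fun j : Fin (nn S) => x (nm 4 i j)) = fun j : Fin (nn S) => y (nm 4 i j) :=
      fun i hi => congrFun e4 ⟨i, by omega⟩
    have e5' : ∀ i ≤ r, x (nm 5 i 0) = y (nm 5 i 0) := fun i hi => congrFun e5 ⟨i, by omega⟩
    funext m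
    by_cases hm : m ∈ fvars (finF E S r)
    · rcases h3 E S r m hm with rfl | rfl | rfl | ⟨l, hl, rfl⟩ | ⟨i, hi, j, hj, rfl⟩ | ⟨i, hi, rfl⟩ |
        ⟨i, hi, t, ht, rfl | rfl⟩ | ⟨t, ht, rfl⟩ | ⟨t, ht, rfl⟩
      · rw [x4, y4]
      · rw [x5, y5]
      · exact e2
      · exact e3' l hl
      · exact congrFun (e4' i hi) ⟨j, hj⟩
      · exact e5' i hi
      · rw [(x1.2 i hi t ht).1, (y1.2 i hi t ht).1, e4' i hi]
      · rw [(x1.2 i hi t ht).2, (y1.2 i hi t ht).2, e4' i hi]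
      · rw [x1.1 t ht, y1.1 t ht]
      · rw [x3 t ht, y3 t ht]
    · rw [x0 m hm, y0 m hm]

end Pool.Agent.W293.IP
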